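import Pool.Agent.H82.AF.Str

/-!
# [H82 AG STR] Three integer points near one branch at infinity are collinear: fixed upper part

The coefficients of degree `> j` are at most `B`, the others at most `H`; `S` is a scale with `H ≤ S^(n-j)`, `H ≤ S^(n-2)`.
With `u' = S u` all coefficients are at most `B`; `three'`. The windows have the length `X/(K S^(2/3))`.
-/

set_option autoImplicit false

namespace Pool.Agent.H82.AG

open Polynomial Pool.Agent.H6.AB Pool.Agent.H8.AA Pool.Agent.H82.AF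

theorem strS (n d : ℕ) (hn : 3 ≤ n) (hd0 : d < n) (B A : ℝ) (hB : 1 ≤ B) (hA : 1 ≤ A) : ∃ K : ℝ, 1 ≤ K ∧
    ∀ (e : ℕ → ℕ → ℤ) (H : ℕ) (S X : ℝ), 1 ≤ S → (H : ℝ) ≤ S ^ (n - d) → (H : ℝ) ≤ S ^ (n - 2) →
    (∀ a b, a + b ≤ n → d < a + b → |(e a b : ℝ)| ≤ B) → (∀ a b, a + b ≤ d → |(e a b : ℝ)| ≤ H) →
    Gd n (B / A) e → K * S ≤ X → ∀ x y : Fin 3 → ℤ,
    (∀ i, X ≤ |(x i : ℝ)| ∧ |(x i : ℝ)| ≤ 2 * X ∧ |y i| ≤ |x i| ∧ |ev n e (x i) (y i)| ≤ (H : ℤ)) →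
    (∀ i j, |(x i : ℝ) - x j| ≤ X / (K * S ^ (2 / 3 : ℝ))) →
    (∀ i j, ∀ s ∈ Set.uIcc ((y i : ℝ) / x i) ((y j : ℝ) / x j), aeval s (derivative (fm e n)) ≠ 0) →
    (x 1 - x 0) * (y 2 - y 0) = (x 2 - x 0) * (y 1 - y 0) := by
  have hM4 : 4 ≤ cM n := by
    unfold cM
    have : 0 ≤ 4 * (n : ℝ) ^ 2 * ((n : ℝ) + 1) ^ 2 + 2 * n * ((n : ℝ) + 1) ^ 2 := by positivity
    linarith
  have hA0 : 0 < A := by linarith
  have hB0 : 0 < B := by linarith
  have hM0 : 0 < cM n := by linarith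
  obtain ⟨C1, hC1⟩ : ∃ C1 : ℝ, C1 = 12 * cM n ^ 3 * A ^ 3 := ⟨_, rfl⟩
  have hC10 : 0 ≤ C1 := by rw [hC1]; positivity
  refine ⟨16 * C1 + 1 + 6 * cM n * A ^ 2, ?_, ?_⟩
  · have : 0 ≤ 6 * cM n * A ^ 2 := by positivity
    linarith
  obtain ⟨K, hK⟩ : ∃ K : ℝ, K = 16 * C1 + 1 + 6 * cM n * A ^ 2 := ⟨_, rfl⟩
  rw [← hK]
  have hK1 : 1 ≤ K := by
    have : 0 ≤ 6 * cM n * A ^ 2 := by positivity
    linarith
  have hKC : 16 * C1 < K := by
    have : 0 ≤ 6 * cM n * A ^ 2 := by positivity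
    linarith
  have hKA : 6 * cM n * A ^ 2 ≤ K := by linarith
  have hK0 : 0 < K := by linarith
  intro e H S X hS1 hHd hH2 ht hb hG hX x y hxy hd hz
  have hH0 : (0 : ℝ) ≤ H := Nat.cast_nonneg H
  have hS0 : 0 < S := by linarith
  have hX1 : 1 ≤ X := by nlinarith
  have hX0 : 0 < X := by linarith
  have hSX : S ≤ X := by nlinarith
  obtain ⟨q, hq⟩ : ∃ q : ℝ, q = 1 / S := ⟨_, rfl⟩
  have hq0 : 0 < q := by rw [hq]; positivity
  have hq1 : q ≤ 1 := by rw [hq, div_le_one hS0]; exact hS1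
  have hqS : q * S = 1 := by rw [hq]; field_simp
  -- the coefficients
  have hbs : ∀ k ≤ n, ∀ j ≤ n, |bs n e q k j| ≤ B := by
    intro k _ j _
    unfold bs bb
    split_ifs with h
    · rw [abs_mul, abs_pow, abs_of_pos hq0]
      by_cases hkd : d < n - k - j + j
      · have h1 := ht (n - k - j) j (by omega) hkd
        have h2 : q ^ k ≤ 1 := pow_le_one₀ hq0.le hq1
        calc |(e (n - k - j) j : ℝ)| * q ^ k ≤ B * 1 := by gcongr
          _ = B := mul_one B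
      · have h1 := hb (n - k - j) j (by omega)
        have h2 : q ^ k ≤ q ^ (n - d) := pow_le_pow_of_le_one hq0.le hq1 (by omega)
        calc |(e (n - k - j) j : ℝ)| * q ^ k ≤ S ^ (n - d) * q ^ (n - d) := by
              have := h1.trans hHd
              gcongr
          _ = (q * S) ^ (n - d) := by rw [mul_pow, mul_comm]
          _ ≤ B := by rw [hqS, one_pow]; exact hB
    · rw [zero_mul, abs_zero]
      exact hB0.le
  obtain ⟨X', hX'⟩ : ∃ X' : ℝ, X' = q * X := ⟨_, rfl⟩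
  have hX'0 : 0 < X' := by rw [hX']; positivity
  have hX'K : 6 * cM n * A ^ 2 ≤ X' := by
    calc 6 * cM n * A ^ 2 ≤ K := hKA
      _ = q * (K * S) := by
          calc K = K * (q * S) := by rw [hqS, mul_one]
            _ = _ := by ring
      _ ≤ X' := by rw [hX']; gcongr
  have hXn : X ^ n = X ^ (n - 2) * X ^ 2 := by rw [← pow_add]; congr 1; omega
  have hHX : (H : ℝ) ≤ X ^ (n - 2) := hH2.trans (pow_le_pow_left₀ hS0.le hSX _)
  obtain ⟨ε, hε⟩ : ∃ ε : ℝ, ε = H / (B * X ^ n) := ⟨_, rfl⟩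
  have hε0 : 0 ≤ ε := by rw [hε]; positivity
  have hεX : ε ≤ 1 / X' ^ 3 := by
    have h0 : X' ≤ X := by rw [hX']; nlinarith
    have h1 : (H : ℝ) * X' ^ 3 ≤ X ^ n := by
      have g1 : (H : ℝ) * (q * q ^ (n - 3)) ≤ 1 := by
        have g2 : q * q ^ (n - 3) = q ^ (n - 2) := by rw [← pow_succ']; congr 1; omega
        rw [g2]
        calc (H : ℝ) * q ^ (n - 2) ≤ S ^ (n - 2) * q ^ (n - 2) := by gcongr
          _ = (q * S) ^ (n - 2) := by rw [mul_pow, mul_comm]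
          _ = 1 := by rw [hqS, one_pow]
      have g3 : (H : ℝ) * q ≤ S ^ (n - 3) := by
        calc (H : ℝ) * q = (H * (q * q ^ (n - 3))) * S ^ (n - 3) := by
              have : q ^ (n - 3) * S ^ (n - 3) = 1 := by rw [← mul_pow, hqS, one_pow]
              calc (H : ℝ) * q = H * q * (q ^ (n - 3) * S ^ (n - 3)) := by rw [this, mul_one]
                _ = _ := by ring
          _ ≤ 1 * S ^ (n - 3) := by gcongr
          _ = _ := one_mul _
      have g4 : (H : ℝ) * q ≤ X ^ (n - 3) := g3.trans (pow_le_pow_left₀ hS0.le hSX _)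
      calc (H : ℝ) * X' ^ 3 = (H * q) * (q ^ 2 * X ^ 3) := by rw [hX']; ring
        _ ≤ X ^ (n - 3) * (1 * X ^ 3) := by
            have : q ^ 2 ≤ 1 := pow_le_one₀ hq0.le hq1
            gcongr
        _ = X ^ n := by rw [one_mul, ← pow_add]; congr 1; omega
    rw [hε, div_le_div_iff₀ (by positivity) (by positivity), one_mul]
    calc (H : ℝ) * X' ^ 3 ≤ X ^ n := h1
      _ ≤ B * X ^ n := by
          have : 0 < X ^ n := by positivity
          nlinarith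
  have ne : ∀ i, (x i : ℝ) ≠ 0 := by
    intro i h
    have := (hxy i).1
    rw [h, abs_zero] at this
    linarith
  have nez : ∀ i, x i ≠ 0 := fun i h => ne i (by rw [h]; simp)
  have small : ∀ i, |Ph n (bs n e q) (1 / (x i : ℝ) / q) ((y i : ℝ) / x i)| ≤ B * ε := by
    intro i
    rw [Ph_bs n e hq0.ne', Ph_bb]
    have h1 := ev_eq n e (x i) (y i) (nez i)
    have h2 : |(ev n e (x i) (y i) : ℝ)| ≤ H := by exact_mod_cast (hxy i).2.2.2
    rw [h1, abs_mul, abs_pow] at h2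
    have h3 : X ^ n ≤ |(x i : ℝ)| ^ n := pow_le_pow_left₀ hX0.le (hxy i).1 n
    obtain ⟨T, hT⟩ : ∃ T : ℝ, T = |∑ k ∈ Finset.range (n + 1), (1 / (x i : ℝ)) ^ (n - k) *
      aeval ((y i : ℝ) / x i) (fm e k)| := ⟨_, rfl⟩
    rw [← hT] at h2 ⊢
    have hT0 : 0 ≤ T := by rw [hT]; exact abs_nonneg _
    have h4 : T * X ^ n ≤ H := by
      calc T * X ^ n ≤ T * |(x i : ℝ)| ^ n := by gcongr
        _ = |(x i : ℝ)| ^ n * T := mul_comm _ _
        _ ≤ H := h2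
    have h5 : B * ε = H * (1 / X ^ n) := by
      rw [hε]
      field_simp
    rw [h5, mul_one_div, le_div_iff₀ (by positivity)]
    exact h4
  have ub : ∀ i, |1 / (x i : ℝ) / q| ≤ 1 / X' := by
    intro i
    rw [abs_div, abs_div, abs_one, abs_of_pos hq0, hX', div_div]
    apply one_div_le_one_div_of_le (by positivity)
    rw [mul_comm]
    exact mul_le_mul_of_nonneg_right (hxy i).1 hq0.le
  have tb : ∀ i, |(y i : ℝ) / x i| ≤ 1 := by
    intro i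
    have h1 : 0 < |(x i : ℝ)| := lt_of_lt_of_le hX0 (hxy i).1
    rw [abs_div, div_le_one h1]
    have := (hxy i).2.2.1
    exact_mod_cast this
  obtain ⟨D, hD⟩ : ∃ D : ℝ, D = K * S ^ (2 / 3 : ℝ) := ⟨_, rfl⟩
  rw [← hD] at hd
  have hH23 : 1 ≤ S ^ (2 / 3 : ℝ) := Real.one_le_rpow hS1 (by norm_num)
  have hDK : K ≤ D := by rw [hD]; nlinarith
  have hD0 : 0 < D := by linarith
  obtain ⟨δ, hδ⟩ : ∃ δ : ℝ, δ = 1 / (D * X) / q := ⟨_, rfl⟩
  have hδ0 : 0 ≤ δ := by rw [hδ]; positivity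
  have dif : ∀ i, |1 / (x i : ℝ) / q - 1 / (x 0 : ℝ) / q| ≤ δ := by
    intro i
    have h1 := inv_diff hX0 (hxy i).1 (hxy 0).1 (hd i 0)
    rw [← sub_div, abs_div, abs_of_pos hq0, hδ]
    gcongr
  have h := three' n hB0 hA hbs hX'K hεX (ub 0) (ub 1) (ub 2) (tb 0) (tb 1) (tb 2)
    (small 0) (small 1) (small 2) hδ0 (dif 1) (dif 2)
    (fun t ht' => by rw [Ph_zero, Pht_zero]; exact hG t ht')
    (fun z hz' => by rw [Pht_zero]; exact hz 0 1 z hz')
    (fun z hz' => by rw [Pht_zero]; exact hz 0 2 z hz')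
  rw [← hC1] at h
  have hdet := det_eq (y1 := (y 0 : ℝ)) (y2 := y 1) (y3 := y 2) (ne 0) (ne 1) (ne 2)
  have hlt : |(((x 1 - x 0) * (y 2 - y 0) - (x 2 - x 0) * (y 1 - y 0) : ℤ) : ℝ)| < 1 := by
    push_cast
    rw [hdet]
    have e1 : (1 / (x 1 : ℝ) - 1 / x 0) * ((y 2 : ℝ) / x 2 - y 0 / x 0) -
        (1 / (x 2 : ℝ) - 1 / x 0) * ((y 1 : ℝ) / x 1 - y 0 / x 0) =
        q * ((1 / (x 1 : ℝ) / q - 1 / x 0 / q) * ((y 2 : ℝ) / x 2 - y 0 / x 0) -
        (1 / (x 2 : ℝ) / q - 1 / x 0 / q) * ((y 1 : ℝ) / x 1 - y 0 / x 0)) := by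
      field_simp
    rw [e1, abs_mul, abs_neg, abs_mul, abs_mul, abs_mul, abs_of_pos hq0]
    have e2 : |(x 0 : ℝ)| * |(x 1 : ℝ)| * |(x 2 : ℝ)| ≤ 2 * X * (2 * X) * (2 * X) := by
      have a0 := (hxy 0).2.1
      have a1 := (hxy 1).2.1
      have a2 := (hxy 2).2.1
      gcongr
    have e3 : |(x 0 : ℝ)| * |(x 1 : ℝ)| * |(x 2 : ℝ)| * (q * |(1 / (x 1 : ℝ) / q - 1 / x 0 / q) *
        ((y 2 : ℝ) / x 2 - y 0 / x 0) - (1 / (x 2 : ℝ) / q - 1 / x 0 / q) * ((y 1 : ℝ) / x 1 - y 0 / x 0)|) ≤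
        2 * X * (2 * X) * (2 * X) * (q * (C1 * (δ * (ε + δ ^ 2)))) := by
      gcongr
    refine lt_of_le_of_lt e3 ?_
    -- numbers
    have f1 : 2 * X * (2 * X) * (2 * X) * (q * (C1 * (δ * (ε + δ ^ 2)))) =
        8 * C1 * (X ^ 2 / D * ε + 1 / (q ^ 2 * D ^ 3)) := by
      rw [hδ]
      field_simp
      ring
    rw [f1]
    have f2 : X ^ 2 / D * ε ≤ 1 / K := by
      rw [hε, hXn]
      have g2 : X ^ 2 / D * (H / (B * (X ^ (n - 2) * X ^ 2))) = H / X ^ (n - 2) * (1 / B) * (1 / D) := by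
        field_simp
      rw [g2]
      have g3 : (H : ℝ) / X ^ (n - 2) ≤ 1 := by rw [div_le_one (by positivity)]; exact hHX
      have g4 : 1 / B ≤ 1 := by rw [div_le_one hB0]; exact hB
      have g5 : 1 / D ≤ 1 / K := one_div_le_one_div_of_le hK0 hDK
      calc H / X ^ (n - 2) * (1 / B) * (1 / D) ≤ 1 * 1 * (1 / K) := by gcongr
        _ = _ := by ring
    have f3 : 1 / (q ^ 2 * D ^ 3) ≤ 1 / K := by
      have g1 : D ^ 3 = K ^ 3 * S ^ 2 := by
        rw [hD, mul_pow]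
        congr 1
        rw [← Real.rpow_natCast, ← Real.rpow_mul hS0.le, ← Real.rpow_natCast]
        norm_num
      rw [g1]
      have g2 : q ^ 2 * (K ^ 3 * S ^ 2) = (q * S) ^ 2 * K ^ 3 := by ring
      rw [g2, hqS, one_pow, one_mul]
      apply one_div_le_one_div_of_le hK0
      exact le_self_pow₀ hK1 (by norm_num)
    calc 8 * C1 * (X ^ 2 / D * ε + 1 / (q ^ 2 * D ^ 3)) ≤ 8 * C1 * (1 / K + 1 / K) := by
          gcongr
      _ = 16 * C1 / K := by ring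
      _ < 1 := by rw [div_lt_one hK0]; exact hKC
  rw [← Int.cast_abs] at hlt
  have h3 : |(x 1 - x 0) * (y 2 - y 0) - (x 2 - x 0) * (y 1 - y 0)| < 1 := by exact_mod_cast hlt
  have h4 := Int.abs_lt_one_iff.1 h3
  linarith

end Pool.Agent.H82.AG
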